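import Pool.Agent.H19.RBLower

set_option autoImplicit false

namespace Pool.Agent.Results.MP_160e58_al.RBIndex

/-- Rota–Baxter operators of weight `0` on an `F`-algebra `A`. -/
def IsRB (F A : Type) [Field F] [Ring A] [Algebra F A] (R : A →ₗ[F] A) : Prop :=
  ∀ x y, R x * R y = R (R x * y + x * R y)

/-- The exponents `m` that kill every Rota–Baxter operator of weight `0` on `A`. -/
def Kills (F A : Type) [Field F] [Ring A] [Algebra F A] : Set ℕ :=
  {m | ∀ R : A →ₗ[F] A, IsRB F A R → R ^ m = 0}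

theorem result (F : Type) [Field F] [CharZero F] (n : ℕ) (hn : 1 ≤ n) :
    IsLeast (Kills F (ExteriorAlgebra F (Fin n → F))) (max n 2) := by
  refine ⟨fun R hR => Pool.Agent.H19.RB.upper hR, fun m hm => ?_⟩
  by_contra hlt
  obtain ⟨R, hR, h⟩ := Pool.Agent.H19.RB.lower (F := F) hn
  apply h
  rw [show max n 2 - 1 = (max n 2 - 1 - m) + m by omega, pow_add, hm R hR, mul_zero]

end Pool.Agent.Results.MP_160e58_al.RBIndex
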